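import Pool.Agent.Q260.DS.Stm

/-! # Project DS, job LB: the local bound in a zero free box -/

set_option autoImplicit false

namespace Pool.Agent.Q210.DS

open Complex Filter Topology Metric Set
open Pool.Agent.Q260.DS

theorem ee_mono {C1 C2 L δ : ℝ} (h1 : 1 ≤ C1) (h12 : C1 ≤ C2) (hL : 1 ≤ L) (hδ : 0 < δ) :
    EE C1 L δ ≤ EE C2 L δ := by
  unfold EE
  have h2 : δ / C2 ≤ δ / C1 := div_le_div_of_nonneg_left hδ.le (by linarith) h12
  have h3 : L ^ (1 - δ / C1) ≤ L ^ (1 - δ / C2) :=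
    Real.rpow_le_rpow_of_exponent_le hL (by linarith)
  have h4 : C1 / δ ^ 2 ≤ C2 / δ ^ 2 := div_le_div_of_nonneg_right h12 (by positivity)
  exact mul_le_mul h4 h3 (Real.rpow_nonneg (by linarith) _) (div_nonneg (by linarith) (by positivity))

theorem ee_ge {C L δ : ℝ} (hC : 1 ≤ C) (hL : 1 ≤ L) (hδ : 0 < δ) (hδ1 : δ ≤ 1 / 2) :
    C ≤ EE C L δ := by
  unfold EE
  have h1 : δ / C ≤ 1 := by
    rw [div_le_one (by linarith)]
    linarith
  have h2 : 1 ≤ L ^ (1 - δ / C) := Real.one_le_rpow hL (by linarith)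
  have h3 : C ≤ C / δ ^ 2 := by
    rw [le_div_iff₀ (by positivity)]
    have : δ ^ 2 ≤ 1 := by nlinarith
    nlinarith
  nlinarith

theorem pt_eq (w : ℂ) : w = (w.re : ℂ) + I * (w.im : ℂ) := by
  rw [mul_comm]
  exact (re_add_im w).symm

/-- JOB LB. -/
theorem t_LB (h0 : Pool.Agent.Q260.DJ.S_TC) (h1 : S_RT) (h2 : S_GR) : S_LB := by
  intro K A k hK hA
  obtain ⟨Cr, hCr, hr⟩ := h1 K A (7 / 4) 6 k hK hA (by norm_num)
  obtain ⟨Cg, hCg, hg⟩ := h2 K A 7 k hK hA (by norm_num)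
  have hl3 : 0 ≤ Real.log 3 := Real.log_nonneg (by norm_num)
  have hl5 : 0 ≤ Real.log 5 := Real.log_nonneg (by norm_num)
  obtain ⟨C0, hC0⟩ : ∃ C0 : ℝ, C0 = Cr + K * Real.log 3 := ⟨_, rfl⟩
  have hC01 : 1 ≤ C0 := by
    rw [hC0]
    nlinarith
  obtain ⟨Ct, hCt, htc⟩ := h0 C0 hC01
  obtain ⟨A', hA'⟩ : ∃ A' : ℝ, A' = Cg + Cr := ⟨_, rfl⟩
  have hA1 : 1 ≤ A' := by rw [hA']; linarith
  obtain ⟨C, hC⟩ : ∃ C : ℝ, C = Ct * A' + Cr + K * Real.log 5 + 1 := ⟨_, rfl⟩
  have hCtA : 1 ≤ Ct * A' := by nlinarith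
  have hK5 : 0 ≤ K * Real.log 5 := by positivity
  have hC1 : 1 ≤ C := by rw [hC]; linarith
  refine ⟨C, hC1, ?_⟩
  intro y0 f l g hS cs hcs y θ δ hCl hθ hθ1 hδ hδ1 hnz x hx1 hx2
  have hr' := hr y0 f l g hS cs hcs
  obtain ⟨hent, hgr⟩ := hg y0 f l g hS cs hcs
  obtain ⟨G, hG⟩ : ∃ G : ℂ → ℂ, G = It f cs := ⟨_, rfl⟩
  rw [← hG] at hr' hent hgr hnz ⊢
  obtain ⟨L, hL⟩ : ∃ L : ℝ, L = l y := ⟨_, rfl⟩
  have hLC : C ≤ L := by rw [hL]; exact hCl
  have hL1 : 1 ≤ L := by linarith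
  have hL0 : 0 < L := by linarith
  obtain ⟨c, hc⟩ : ∃ c : ℂ, c = (3 : ℂ) + I * (y : ℂ) := ⟨_, rfl⟩
  obtain ⟨ρ, hρ⟩ : ∃ ρ : ℝ, ρ = 3 - θ := ⟨_, rfl⟩
  have hcre : c.re = 3 := by rw [hc]; simp
  have hcim : c.im = y := by rw [hc]; simp
  obtain ⟨q, hq⟩ : ∃ q : ℂ → ℂ, q = fun w => G w * Complex.exp (-(L : ℂ) * w) := ⟨_, rfl⟩
  have hqn : ∀ w, ‖q w‖ = ‖G w‖ * Real.exp (-L * w.re) := by
    intro w
    rw [hq]
    simp only [norm_mul, Complex.norm_exp]
    congr 2
    simp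
  have hρ2 : 2 ≤ ρ := by rw [hρ]; linarith
  have hρ3 : ρ ≤ 3 := by rw [hρ]; linarith
  have hnear : ∀ (w : ℂ) (r : ℝ), ‖w - c‖ ≤ r → |w.re - 3| ≤ r ∧ |w.im - y| ≤ r := by
    intro w r h
    constructor
    · have := (abs_re_le_norm (w - c)).trans h
      rwa [sub_re, hcre] at this
    · have := (abs_im_le_norm (w - c)).trans h
      rwa [sub_im, hcim] at this
  have hlh : ∀ v : ℝ, |v - y| ≤ 3 → Cr ≤ l v := by
    intro v hv
    have h3 := hS.shift y (v - y)
    rw [add_sub_cancel] at h3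
    have h4 : Real.log (2 + |v - y|) ≤ Real.log 5 :=
      Real.log_le_log (by positivity) (by linarith)
    have h5 := (abs_le.1 h3).1
    have h6 : K * Real.log (2 + |v - y|) ≤ K * Real.log 5 :=
      mul_le_mul_of_nonneg_left h4 (by linarith)
    rw [← hL] at h5
    have h7 : Cr + K * Real.log 5 ≤ L := by
      rw [hC] at hLC
      linarith
    linarith
  have hball : ∀ w ∈ ball c ρ, θ < w.re ∧ w.re < 6 ∧ |w.im - y| < 3 := by
    intro w hw
    rw [mem_ball, dist_eq_norm] at hw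
    obtain ⟨q1, q2⟩ := hnear w _ le_rfl
    have q3 := abs_lt.1 (q1.trans_lt hw)
    have q4 := q2.trans_lt hw
    refine ⟨by linarith [q3.1], by linarith [q3.2], by linarith⟩
  have hne : ∀ w ∈ ball c ρ, G w ≠ 0 := by
    intro w hw
    obtain ⟨p1, p2, p3⟩ := hball w hw
    have p4 := abs_lt.1 p3
    rcases le_or_gt w.re 2 with h | h
    · exact hnz w p1 h (by linarith [p4.1]) (by linarith [p4.2])
    · have h3 := (hr' w.re w.im (hlh _ p3.le) (by linarith) (by linarith)).1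
      rwa [← pt_eq] at h3
  have hqne : ∀ w ∈ ball c ρ, q w ≠ 0 := by
    intro w hw
    rw [hq]
    exact mul_ne_zero (hne w hw) (Complex.exp_ne_zero _)
  have hexpd : Differentiable ℂ fun w : ℂ => Complex.exp (-(L : ℂ) * w) := by fun_prop
  have hqd : Differentiable ℂ q := by
    rw [hq]
    exact hent.mul hexpd
  have hld : ∀ w, G w ≠ 0 → logDeriv q w = logDeriv G w - (L : ℂ) := by
    intro w hw
    rw [hq]
    rw [logDeriv_mul (f := G) (g := fun w : ℂ => Complex.exp (-(L : ℂ) * w)) w hw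
      (Complex.exp_ne_zero _) (hent w) (hexpd w)]
    have h3 : logDeriv (fun w : ℂ => Complex.exp (-(L : ℂ) * w)) w = -(L : ℂ) := by
      rw [logDeriv_apply]
      have h4 : HasDerivAt (fun w : ℂ => Complex.exp (-(L : ℂ) * w))
          (Complex.exp (-(L : ℂ) * w) * (-(L : ℂ))) w := by
        have h5 := ((hasDerivAt_id w).const_mul (-(L : ℂ))).cexp
        simpa using h5
      rw [h4.deriv, mul_div_assoc, mul_comm, div_mul_cancel₀ _ (Complex.exp_ne_zero _)]
    rw [h3, sub_eq_add_neg]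
  have hgy := hS.pos y
  have hLk : 1 ≤ L ^ k := one_le_pow₀ hL1
  -- the centre
  have hcen : g y * L ^ k / Cr ≤ ‖q c‖ ∧ ‖q c‖ ≤ Cr * (g y * L ^ k) := by
    obtain ⟨-, -, h5, h6⟩ := hr' 3 y (hlh y (by simp)) (by norm_num) (by norm_num)
    have e0 : ((3 : ℝ) : ℂ) + I * (y : ℂ) = c := by rw [hc]; norm_num
    rw [e0] at h5 h6
    rw [hqn, hcre]
    unfold Nm at h5 h6
    rw [← hL] at h5 h6
    have hexp : Real.exp (L * 3) * Real.exp (-L * 3) = 1 := by
      rw [← Real.exp_add]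
      simp
    constructor
    · calc g y * L ^ k / Cr = g y * Real.exp (L * 3) * L ^ k / Cr * Real.exp (-L * 3) := by
            calc g y * L ^ k / Cr = g y * L ^ k / Cr * (Real.exp (L * 3) * Real.exp (-L * 3)) := by
                  rw [hexp, mul_one]
              _ = _ := by ring
        _ ≤ ‖G c‖ * Real.exp (-L * 3) := mul_le_mul_of_nonneg_right h5 (Real.exp_pos _).le
    · calc ‖G c‖ * Real.exp (-L * 3) ≤ Cr * (g y * Real.exp (L * 3) * L ^ k) *
            Real.exp (-L * 3) := mul_le_mul_of_nonneg_right h6 (Real.exp_pos _).le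
        _ = Cr * (g y * L ^ k) * (Real.exp (L * 3) * Real.exp (-L * 3)) := by ring
        _ = Cr * (g y * L ^ k) := by rw [hexp, mul_one]
  have hqc0 : 0 < ‖q c‖ := lt_of_lt_of_le (by positivity) hcen.1
  -- the upper bound
  have hup : ∀ w ∈ ball c ρ, ‖q w‖ ≤ Real.exp (A' * L) * ‖q c‖ := by
    intro w hw
    obtain ⟨p1, p2, p3⟩ := hball w hw
    have hw2 : ‖w - c‖ < 3 := by
      rw [mem_ball, dist_eq_norm] at hw
      linarith
    have h3 : ‖w - I * (y : ℂ)‖ ≤ 7 := by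
      have e : w - I * (y : ℂ) = (w - c) + 3 := by rw [hc]; ring
      rw [e]
      refine (norm_add_le _ _).trans ?_
      have : ‖(3 : ℂ)‖ = 3 := by norm_num
      rw [this]
      linarith
    have h4 := hgr y (by rw [← hL]; exact hL1) _ h3
    rw [sub_add_cancel, ← hL] at h4
    rw [hqn]
    have h5 : Real.exp (-L * w.re) ≤ 1 := by
      apply Real.exp_le_one_iff.2
      nlinarith
    have h6 : Cr ≤ Real.exp (Cr * L) := by
      have h8 := Real.add_one_le_exp (Cr * L)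
      have h9 : Cr * 1 ≤ Cr * L := mul_le_mul_of_nonneg_left hL1 (by linarith)
      linarith
    have h7 : g y ≤ Cr * ‖q c‖ := by
      have h8 := hcen.1
      rw [div_le_iff₀ (by linarith)] at h8
      have h9 : g y * 1 ≤ g y * L ^ k := mul_le_mul_of_nonneg_left hLk hgy.le
      linarith
    calc ‖G w‖ * Real.exp (-L * w.re) ≤ (g y * Real.exp (Cg * L)) * 1 :=
          mul_le_mul h4 h5 (Real.exp_pos _).le (by positivity)
      _ ≤ (Cr * ‖q c‖) * Real.exp (Cg * L) * 1 := by gcongr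
      _ ≤ (Real.exp (Cr * L) * ‖q c‖) * Real.exp (Cg * L) * 1 := by gcongr
      _ = Real.exp (A' * L) * ‖q c‖ := by
          rw [hA', add_mul, Real.exp_add]
          ring
  have hsmall : ∀ w ∈ closedBall c 1, ‖logDeriv q w‖ ≤ C0 := by
    intro w hw
    have hwb : w ∈ ball c ρ := closedBall_subset_ball (by linarith) hw
    rw [hld w (hne w hwb)]
    rw [mem_closedBall, dist_eq_norm] at hw
    obtain ⟨q1, q2⟩ := hnear w 1 hw
    have q3 := abs_le.1 q1
    have h3 := (hr' w.re w.im (hlh _ (by linarith)) (by linarith [q3.1]) (by linarith [q3.2])).2.1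
    rw [← pt_eq] at h3
    have h4 := hS.shift y (w.im - y)
    rw [add_sub_cancel, ← hL] at h4
    have h5 : Real.log (2 + |w.im - y|) ≤ Real.log 3 :=
      Real.log_le_log (by positivity) (by linarith)
    have h6 : K * Real.log (2 + |w.im - y|) ≤ K * Real.log 3 :=
      mul_le_mul_of_nonneg_left h5 (by linarith)
    have e : logDeriv G w - (L : ℂ) = (logDeriv G w - (l w.im : ℂ)) + ((l w.im - L : ℝ) : ℂ) := by
      push_cast
      ring
    rw [e]
    refine (norm_add_le _ _).trans ?_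
    rw [Complex.norm_real, Real.norm_eq_abs, hC0]
    linarith
  have hM1 : 1 ≤ A' * L := by nlinarith
  obtain ⟨z, hz⟩ : ∃ z : ℂ, z = (x : ℂ) + I * (y : ℂ) := ⟨_, rfl⟩
  rw [← hz]
  have hzre : z.re = x := by rw [hz]; simp
  have hzc : ‖z - c‖ ≤ ρ - δ := by
    have e : z - c = ((x - 3 : ℝ) : ℂ) := by
      rw [hz, hc]
      push_cast
      ring
    rw [e, Complex.norm_real, Real.norm_eq_abs, abs_le, hρ]
    constructor <;> linarith
  have hzb : z ∈ ball c ρ := by
    rw [mem_ball, dist_eq_norm]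
    linarith
  obtain ⟨r1, r2⟩ := htc q c ρ δ (A' * L) hρ2 hρ3 hδ hδ1 hM1 hqd.differentiableOn hqne hup hsmall
    z hzc
  have hE : Ct / δ ^ 2 * (A' * L) ^ (1 - δ / Ct) ≤ EE (Ct * A') L δ := by
    have hA0 : 0 < A' := by linarith
    have hCt0 : 0 < Ct := by linarith
    unfold EE
    rw [Real.mul_rpow hA0.le (by linarith)]
    have hdc : δ / Ct ≤ 1 := by
      rw [div_le_one hCt0]
      linarith
    have hdc0 : 0 ≤ δ / Ct := by positivity
    have e1 : A' ^ (1 - δ / Ct) ≤ A' := by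
      calc A' ^ (1 - δ / Ct) ≤ A' ^ (1 : ℝ) :=
            Real.rpow_le_rpow_of_exponent_le hA1 (by linarith)
        _ = A' := Real.rpow_one _
    have e2 : L ^ (1 - δ / Ct) ≤ L ^ (1 - δ / (Ct * A')) := by
      apply Real.rpow_le_rpow_of_exponent_le hL1
      have : δ / (Ct * A') ≤ δ / Ct :=
        div_le_div_of_nonneg_left hδ.le hCt0 (by nlinarith)
      linarith
    calc Ct / δ ^ 2 * (A' ^ (1 - δ / Ct) * L ^ (1 - δ / Ct))
        ≤ Ct / δ ^ 2 * (A' * L ^ (1 - δ / (Ct * A'))) := by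
          apply mul_le_mul_of_nonneg_left _ (by positivity)
          exact mul_le_mul e1 e2 (Real.rpow_nonneg (by linarith) _) hA0.le
      _ = Ct * A' / δ ^ 2 * L ^ (1 - δ / (Ct * A')) := by ring
  have hE2 : EE (Ct * A') L δ + Cr ≤ EE C L δ := by
    unfold EE
    have h2 : δ / C ≤ δ / (Ct * A') :=
      div_le_div_of_nonneg_left hδ.le (by linarith) (by rw [hC]; linarith)
    have h3 : L ^ (1 - δ / (Ct * A')) ≤ L ^ (1 - δ / C) :=
      Real.rpow_le_rpow_of_exponent_le hL1 (by linarith)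
    have hdc : δ / C ≤ 1 := by
      rw [div_le_one (by linarith)]
      linarith
    have h4 : 1 ≤ L ^ (1 - δ / C) := Real.one_le_rpow hL1 (by linarith)
    have h5 : Cr ≤ Cr / δ ^ 2 := by
      rw [le_div_iff₀ (by positivity)]
      have : δ ^ 2 ≤ 1 := by nlinarith
      nlinarith
    have h6 : Cr ≤ Cr / δ ^ 2 * L ^ (1 - δ / C) := by nlinarith
    have h7 : Ct * A' / δ ^ 2 * L ^ (1 - δ / (Ct * A')) ≤ Ct * A' / δ ^ 2 * L ^ (1 - δ / C) :=
      mul_le_mul_of_nonneg_left h3 (by positivity)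
    have h8 : (Ct * A' + Cr) / δ ^ 2 * L ^ (1 - δ / C) ≤ C / δ ^ 2 * L ^ (1 - δ / C) := by
      apply mul_le_mul_of_nonneg_right _ (by linarith)
      apply div_le_div_of_nonneg_right _ (by positivity)
      rw [hC]
      linarith
    have h9 : (Ct * A' + Cr) / δ ^ 2 * L ^ (1 - δ / C) =
      Ct * A' / δ ^ 2 * L ^ (1 - δ / C) + Cr / δ ^ 2 * L ^ (1 - δ / C) := by ring
    linarith
  have hGz := hne z hzb
  refine ⟨hGz, ?_, ?_⟩
  · have hNm : 0 < Nm l g k y x := by
      unfold Nm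
      rw [← hL]
      positivity
    have e1 : ‖G z‖ / Nm l g k y x = (‖q z‖ / ‖q c‖) * (‖q c‖ / (g y * L ^ k)) := by
      rw [div_mul_div_cancel₀ hqc0.ne', hqn, hzre]
      unfold Nm
      rw [← hL]
      have : Real.exp (L * x) * Real.exp (-L * x) = 1 := by
        rw [← Real.exp_add]
        simp
      rw [div_eq_div_iff (by positivity) (by positivity)]
      linear_combination (-(‖G z‖ * g y * L ^ k)) * this
    have hqz0 : 0 < ‖q z‖ := norm_pos_iff.2 (hqne z hzb)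
    rw [e1, Real.log_mul (by positivity) (by positivity), ← hL]
    have e2 : |Real.log (‖q c‖ / (g y * L ^ k))| ≤ Cr := by
      have hp : 0 < g y * L ^ k := by positivity
      have f1 : ‖q c‖ / (g y * L ^ k) ≤ Cr := by
        rw [div_le_iff₀ hp]
        exact hcen.2
      have f2 : 1 / Cr ≤ ‖q c‖ / (g y * L ^ k) := by
        rw [le_div_iff₀ hp, one_div, inv_mul_eq_div]
        exact hcen.1
      have f3 := Real.log_le_log (by positivity) f1
      have f4 := Real.log_le_log (by positivity) f2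
      rw [one_div, Real.log_inv] at f4
      have f5 := Real.log_le_sub_one_of_pos (show 0 < Cr by linarith)
      rw [abs_le]
      constructor <;> linarith
    refine (abs_add_le _ _).trans ?_
    linarith
  · rw [← hL, ← hld z hGz]
    linarith

end Pool.Agent.Q210.DS
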