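import Pool.Agent.Q260.DS.Stm

/-! # Project DS, job BK: one step backwards (adapted from `Q144.DJ.BK`) -/

set_option autoImplicit false

namespace Pool.Agent.Q210.DS

open Complex Filter Topology Metric Set
open Pool.Agent.Q260.DS

theorem ee_le {C C' l δ : ℝ} (hC' : 1 ≤ C') (hCC : C' ≤ C) (hT : 1 ≤ l) (hok : Ok C l δ) :
    EE C' l δ ≤ C' / C * δ * l := by
  obtain ⟨h1, h2, h3⟩ := hok
  have hC : 0 < C := by linarith
  have hC0 : 0 < C' := by linarith
  have hl0 : 0 < l := by linarith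
  have h4 : l ^ (1 - δ / C') ≤ l ^ (1 - δ / C) := by
    apply Real.rpow_le_rpow_of_exponent_le hT
    have : δ / C ≤ δ / C' := div_le_div_of_nonneg_left h1.le hC0 hCC
    linarith
  have h5 : l ^ (1 - δ / C) = l / l ^ (δ / C) := by
    rw [Real.rpow_sub hl0, Real.rpow_one]
  have h6 : l / l ^ (δ / C) ≤ l / (C / δ ^ 3) := by
    apply div_le_div_of_nonneg_left hl0.le (by positivity) h3
  calc EE C' l δ = C' / δ ^ 2 * l ^ (1 - δ / C') := rfl
    _ ≤ C' / δ ^ 2 * (l / (C / δ ^ 3)) := by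
        have := h4.trans (h5.le.trans h6)
        gcongr
    _ = C' / C * δ * l := by
        field_simp

theorem dl_ge {C l δ : ℝ} (hC : 1 ≤ C) (hT : 1 ≤ l) (hok : Ok C l δ) :
    Real.sqrt l / 4 ≤ δ * l / 2 := by
  obtain ⟨h1, h2, h3⟩ := hok
  have hl0 : 0 < l := by linarith
  have hC0 : 0 < C := by linarith
  have h4 : 8 ≤ C / δ ^ 3 := by
    rw [le_div_iff₀ (by positivity)]
    have : δ ^ 3 ≤ (1 / 2) ^ 3 := pow_le_pow_left₀ h1.le h2 3
    nlinarith
  have h5 : Real.log 8 ≤ Real.log (l ^ (δ / C)) := Real.log_le_log (by norm_num) (h4.trans h3)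
  rw [Real.log_rpow hl0] at h5
  have h6 : 1 ≤ Real.log 8 := by
    rw [Real.le_log_iff_exp_le (by norm_num)]
    have := Real.exp_one_lt_d9
    linarith
  have hll : 0 ≤ Real.log l := Real.log_nonneg hT
  have h7 : δ / C * Real.log l ≤ δ * Real.log l := by
    apply mul_le_mul_of_nonneg_right _ hll
    exact div_le_self h1.le hC
  have h8 : 1 ≤ δ * Real.log l := by linarith
  have hs0 : 0 < Real.sqrt l := Real.sqrt_pos.2 hl0
  have hs : Real.sqrt l * Real.sqrt l = l := Real.mul_self_sqrt hl0.le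
  have h9 : Real.log l ≤ 2 * Real.sqrt l := by
    have e1 : Real.log l = 2 * Real.log (Real.sqrt l) := by
      rw [Real.log_sqrt hl0.le]; ring
    have e2 := Real.log_le_sub_one_of_pos hs0
    rw [e1]
    linarith
  have h10 : 1 ≤ δ * (2 * Real.sqrt l) := h8.trans (by gcongr)
  calc Real.sqrt l / 4 = 1 * Real.sqrt l / 4 := by ring
    _ ≤ δ * (2 * Real.sqrt l) * Real.sqrt l / 4 := by gcongr
    _ = δ * (Real.sqrt l * Real.sqrt l) / 2 := by ring
    _ = δ * l / 2 := by rw [hs]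

theorem exp_small {C2 l y : ℝ} (hC2 : 1 ≤ C2) (hl : 40000 * C2 ≤ l) (hy : Real.sqrt l / 4 ≤ y) :
    C2 * (l / 2) * Real.exp (-(3 / 4) * y) ≤ 1 / 4 ∧ Real.exp (-y) ≤ 1 / 4 := by
  have hl0 : 0 < l := by linarith
  have hs : Real.sqrt l * Real.sqrt l = l := Real.mul_self_sqrt hl0.le
  have hs0 : 0 < Real.sqrt l := Real.sqrt_pos.2 hl0
  have hs1 : 200 ≤ Real.sqrt l := by
    apply Real.le_sqrt_of_sq_le
    nlinarith
  have hyp : 50 ≤ y := by linarith
  constructor
  · have h1 := Real.pow_div_factorial_le_exp (3 / 4 * y) (by linarith) 4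
    have h2 : (3 / 4 * (Real.sqrt l / 4)) ^ 4 ≤ (3 / 4 * y) ^ 4 := by
      gcongr
    have h3 : (3 / 4 * (Real.sqrt l / 4)) ^ 4 = (81 / 65536) * (l * l) := by
      have : (3 / 4 * (Real.sqrt l / 4)) ^ 4 = (81 / 65536) *
        ((Real.sqrt l * Real.sqrt l) * (Real.sqrt l * Real.sqrt l)) := by ring
      rw [this, hs]
    have h4 : (4 : ℕ).factorial = 24 := rfl
    rw [h4] at h1
    push_cast at h1
    have h5 : 81 / 65536 / 24 * (l * l) ≤ Real.exp (3 / 4 * y) := by
      refine le_trans ?_ h1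
      rw [le_div_iff₀ (by norm_num)]
      linarith
    have e : Real.exp (-(3 / 4) * y) = (Real.exp (3 / 4 * y))⁻¹ := by
      rw [← Real.exp_neg]; ring_nf
    rw [e, ← div_eq_mul_inv, div_le_iff₀ (Real.exp_pos _)]
    have h6 : C2 * (l / 2) ≤ 1 / 4 * (81 / 65536 / 24 * (l * l)) := by
      have h7 : 40000 * C2 * l ≤ l * l := by gcongr
      nlinarith
    linarith
  · have h1 := Real.add_one_le_exp y
    rw [Real.exp_neg, inv_le_comm₀ (Real.exp_pos _) (by norm_num)]
    norm_num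
    linarith

theorem it_an {f : ℂ → ℂ} (hf : Differentiable ℂ f) (cs : List ℝ) (z : ℂ) :
    AnalyticAt ℂ (It f cs) z := by
  induction cs generalizing z with
  | nil => exact hf.analyticAt z
  | cons c cs ih => exact (ih z).deriv.sub (analyticAt_const.mul (ih z))

/-- JOB BK. -/
theorem t_BK (h0 : Pool.Agent.Q260.DJ.S_OD) (h1 : S_LB) (h2 : S_VI) : S_BK := by
  intro K A k hK hA
  obtain ⟨C1, hC1, hLB⟩ := h1 K A (k + 1) hK hA
  obtain ⟨C2, hC2, hVI⟩ := h2 K A k hK hA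
  obtain ⟨C, hC⟩ : ∃ C : ℝ, C = 64 * C1 + 80000 * C2 + 16 * A := ⟨_, rfl⟩
  refine ⟨C, by rw [hC]; linarith, ?_⟩
  intro y0 f l g hS c cs hc hcs T θ δ hT hCT hθ0 hθ1 hok hNZ z hzT hz1 hz2
  have hlist : Li A (k + 1) (c :: cs) := by
    refine ⟨by simp [hcs.1], ?_⟩
    intro d hd
    rcases List.mem_cons.1 hd with rfl | hd
    · exact hc
    · exact hcs.2 d hd
  obtain ⟨L, hL⟩ : ∃ L : ℝ, L = l T := ⟨_, rfl⟩
  rw [← hL] at hCT hok hNZ
  obtain ⟨hδ0, hδ1, -⟩ := id hok
  have hC0 : 0 < C := by rw [hC]; linarith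
  have hL1 : 1 ≤ L := by rw [hC] at hCT; linarith
  have hLp : 0 < L := by linarith
  have hE1 : EE C1 L δ ≤ L / 64 := by
    have e1 := ee_le hC1 (by rw [hC]; linarith) hL1 hok
    have e2 : C1 / C ≤ 1 / 64 := by
      rw [div_le_iff₀ hC0, hC]
      linarith
    calc EE C1 L δ ≤ C1 / C * δ * L := e1
      _ ≤ 1 / 64 * 1 * L := by
          gcongr
          linarith
      _ = L / 64 := by ring
  have hE2 : 3 * EE C2 L δ ≤ 1 / 4 * (δ * L) := by
    have e1 := ee_le hC2 (by rw [hC]; linarith) hL1 hok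
    have e2 : C2 / C ≤ 1 / 12 := by
      rw [div_le_iff₀ hC0, hC]
      linarith
    have e3 : C2 / C * δ * L ≤ 1 / 12 * δ * L := by gcongr
    linarith
  have hAL : 16 * A ≤ L := by rw [hC] at hCT; linarith
  have hNZ4 : NZ (It f (c :: cs)) θ (T - 4) (T + 4) := by
    intro w a1 a2 a3 a4
    refine hNZ w a1 a2 a3 (a4.trans ?_)
    have : 4 ≤ C := by rw [hC]; linarith
    nlinarith
  have hNZ2 : NZ (It f (c :: cs)) θ (T - 4) (T + C2 * L) := by
    intro w a1 a2 a3 a4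
    refine hNZ w a1 a2 a3 (a4.trans ?_)
    have : C2 ≤ C := by rw [hC]; linarith
    gcongr
  obtain ⟨F, hF⟩ : ∃ F : ℂ → ℂ, F = It f cs := ⟨_, rfl⟩
  obtain ⟨G, hG⟩ : ∃ G : ℂ → ℂ, G = It f (c :: cs) := ⟨_, rfl⟩
  have hGF : ∀ w, G w = deriv F w - (c : ℂ) * F w := by
    intro w
    rw [hG, hF]
    rfl
  have hFa : ∀ w, AnalyticAt ℂ F w := by
    intro w
    rw [hF]
    exact it_an hS.diff cs w
  have hGa : ∀ w, AnalyticAt ℂ G w := by
    intro w
    rw [hG]
    exact it_an hS.diff (c :: cs) w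
  rw [← hF]
  rw [← hG] at hNZ4 hNZ2
  -- the horizontal segment
  obtain ⟨p, hp⟩ : ∃ p : ℝ → ℂ, p = fun x : ℝ => (x : ℂ) + I * T := ⟨_, rfl⟩
  have hseg : ∀ x : ℝ, θ + δ ≤ x → x ≤ 3 → G (p x) ≠ 0 ∧
      ‖(logDeriv G (p x) - (c : ℂ)) - (L : ℂ)‖ ≤ 1 / 8 * L := by
    intro x a1 a2
    have b := hLB y0 f l g hS (c :: cs) hlist T θ δ
    rw [← hG, ← hL] at b
    obtain ⟨b1, -, b2⟩ := b (by rw [hC] at hCT; linarith) hθ0 hθ1 hδ0 hδ1 hNZ4 x a1 a2
    have e0 : (x : ℂ) + I * T = p x := by rw [hp]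
    rw [e0] at b1 b2
    refine ⟨b1, ?_⟩
    have e : (logDeriv G (p x) - (c : ℂ)) - (L : ℂ) = (logDeriv G (p x) - (L : ℂ)) - (c : ℂ) := by
      ring
    rw [e]
    refine (norm_sub_le _ _).trans ?_
    rw [Complex.norm_real, Real.norm_eq_abs]
    linarith
  have hpd : ∀ x : ℝ, HasDerivAt p 1 x := by
    intro x
    rw [hp]
    simpa using (hasDerivAt_id x).ofReal_comp.add_const (I * (T : ℂ))
  have hcx : ∀ x ∈ Icc (θ + δ) z.re,
      HasDerivAt (fun x => F (p x) / G (p x))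
        (1 - (logDeriv G (p x) - (c : ℂ)) * (F (p x) / G (p x))) x := by
    intro x hx
    obtain ⟨b1, -⟩ := hseg x hx.1 (by linarith [hx.2])
    have d1 : HasDerivAt (fun x => F (p x)) (deriv F (p x)) x := by
      have := (hFa (p x)).differentiableAt.hasDerivAt.comp x (hpd x)
      rw [mul_one] at this
      exact this
    have d2 : HasDerivAt (fun x => G (p x)) (deriv G (p x)) x := by
      have := (hGa (p x)).differentiableAt.hasDerivAt.comp x (hpd x)
      rw [mul_one] at this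
      exact this
    have d3 := d1.div d2 b1
    refine d3.congr_deriv ?_
    have d4 : deriv F (p x) = G (p x) + (c : ℂ) * F (p x) := by
      rw [hGF]
      ring
    rw [logDeriv_apply, d4]
    field_simp
    ring
  have hzeq : p z.re = z := by
    rw [hp]
    apply Complex.ext
    · simp
    · simp [hzT]
  have key := h0 (fun x => F (p x) / G (p x)) (fun x => logDeriv G (p x) - (c : ℂ))
    (θ + δ) z.re L (1 / 8) (C2 * Real.exp (3 * EE C2 L δ)) (by linarith) hLp (by norm_num)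
    (by norm_num) hcx ?_ (fun x hx => (hseg x hx.1 (by linarith [hx.2])).2) ?_ z.re
    ⟨by linarith, le_rfl⟩
  · -- conclusion
    intro hzero
    simp only [hzeq, hzero, zero_div, zero_sub, norm_neg] at key
    have e1 : ‖(1 : ℂ) / (L : ℂ)‖ = 1 / L := by
      rw [norm_div, norm_one, Complex.norm_real, Real.norm_eq_abs, abs_of_pos hLp]
    rw [e1] at key
    obtain ⟨y, hy⟩ : ∃ y : ℝ, y = δ * L := ⟨_, rfl⟩
    have hdl := dl_ge (C := C) (by rw [hC]; linarith) hL1 hok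
    have hsq := Real.sqrt_nonneg L
    have hdl2 : Real.sqrt L / 4 ≤ y := by
      rw [hy]
      have : 0 < δ * L := by positivity
      linarith
    rw [← hy] at hE2
    obtain ⟨s1, s2⟩ := exp_small (C2 := 2 * C2) (by linarith) (l := L)
      (by rw [hC] at hCT; linarith) hdl2
    have e2 : Real.exp (-(L / 2) * (z.re - (θ + δ))) ≤ Real.exp (-y) := by
      apply Real.exp_le_exp.2
      rw [hy]
      nlinarith
    have e3 : C2 * Real.exp (3 * EE C2 L δ) ≤ C2 * Real.exp (1 / 4 * y) := by gcongr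
    have e4 : Real.exp (-(L / 2) * (z.re - (θ + δ))) * (C2 * Real.exp (3 * EE C2 L δ) + 1 / L) ≤
        Real.exp (-y) * (C2 * Real.exp (1 / 4 * y) + 1 / L) := by gcongr
    have e5 : Real.exp (-y) * (C2 * Real.exp (1 / 4 * y)) = C2 * Real.exp (-(3 / 4) * y) := by
      rw [mul_left_comm, ← Real.exp_add]
      congr 2
      ring
    have e6 : Real.exp (-y) * (C2 * Real.exp (1 / 4 * y) + 1 / L) ≤ 1 / 2 * (1 / L) := by
      rw [mul_add, e5]
      have f1 : C2 * Real.exp (-(3 / 4) * y) ≤ 1 / 4 * (1 / L) := by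
        rw [mul_one_div, le_div_iff₀ hLp]
        have : 2 * C2 * (L / 2) * Real.exp (-(3 / 4) * y) = C2 * Real.exp (-(3 / 4) * y) * L := by
          ring
        linarith
      have f2 : Real.exp (-y) * (1 / L) ≤ 1 / 4 * (1 / L) := by gcongr
      linarith
    have e7 : 2 * (1 / 8 : ℝ) / L = 1 / 4 * (1 / L) := by ring
    rw [e7] at key
    have hpos : 0 < 1 / L := by positivity
    linarith
  · -- continuity
    intro x hx
    obtain ⟨b1, -⟩ := hseg x hx.1 (by linarith [hx.2])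
    have c1 : AnalyticAt ℂ (logDeriv G) (p x) := (hGa (p x)).deriv.div (hGa (p x)) b1
    exact ((ContinuousAt.comp (f := p) (g := logDeriv G) c1.continuousAt
      (hpd x).continuousAt).sub continuousAt_const).continuousWithinAt
  · -- the initial value
    have v := hVI y0 f l g hS c cs hc hcs T θ δ hT
    rw [← hL, ← hG, ← hF] at v
    have v2 := v (by rw [hC] at hCT; linarith) hθ0 hθ1 hδ0 hδ1 hNZ2
    obtain ⟨b1, -⟩ := hseg (θ + δ) le_rfl (by linarith)
    have e : p (θ + δ) = ((θ + δ : ℝ) : ℂ) + I * T := by rw [hp]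
    rw [← e] at v2
    rw [norm_div, div_le_iff₀ (norm_pos_iff.2 b1)]
    exact v2

end Pool.Agent.Q210.DS
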