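import Pool.Agent.Q260.DS.Stm2

/-!
# Project DS (helper260), job DU: the dual L-function
-/

set_option autoImplicit false

namespace Pool.Agent.Q210.DS

open Complex Filter Topology Metric Set
open Pool.Agent.W169.HF H353.E H353.F Q240.GS Pool.Agent.Q260.DS
open scoped ComplexConjugate

lemma conj_GR (s : ℂ) : conj (Gammaℝ s) = Gammaℝ (conj s) := by
  rw [Gammaℝ_def, Gammaℝ_def, map_mul, ← Complex.Gamma_conj, conj_cpow_real Real.pi_pos]
  congr 2
  · rw [map_div₀, map_neg, map_ofNat]
  · rw [map_div₀, map_ofNat]

lemma conj_tprod {ι : Type*} (f : ι → ℂ) : conj (∏' i, f i) = ∏' i, conj (f i) := by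
  have h := Function.LeftInverse.map_tprod (L := SummationFilter.unconditional ι) (g := starRingEnd ℂ) (f := f) (g' := starRingEnd ℂ)
    Complex.continuous_conj Complex.continuous_conj (fun z => Complex.conj_conj z)
  exact h

theorem t_DU : S_DU := by
  rintro m N μ Λ ⟨α, ε, d, hnz⟩
  refine ⟨fun j p => conj (α j p), conj ε, ?_, ?_⟩
  · have hN := d.one_le
    have hN0 : 0 < N := by linarith
    refine ⟨d.one_le, fun j => ?_, fun j p hp => ?_, ?_, ?_, fun s hs => ?_, fun s => ?_, fun a b => ?_⟩
    · rw [conj_re]
      exact d.re_le j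
    · rw [Complex.norm_conj]
      exact d.norm_le j p hp
    · rw [Complex.norm_conj]
      exact d.norm_eq
    · intro w
      have h3 := (d.entire (conj w)).hasDerivAt.conj_conj
      rw [Complex.conj_conj] at h3
      exact h3.differentiableAt
    · rw [d.euler (conj s) (by rw [conj_re]; exact hs), map_mul, map_prod, conj_tprod]
      congr 1
      · refine Finset.prod_congr rfl fun j _ => ?_
        rw [conj_GR, map_sub, Complex.conj_conj]
      · refine tprod_congr fun p => ?_
        rw [map_prod]
        refine Finset.prod_congr rfl fun j _ => ?_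
        have hp : (0 : ℝ) < (p : ℕ) := by exact_mod_cast p.2.pos
        have h1 := conj_cpow_real hp (-conj s)
        rw [map_neg, Complex.conj_conj, Complex.ofReal_natCast] at h1
        rw [map_inv₀, map_sub, map_one, map_mul, h1]
    · have h1 := d.fe (conj s)
      rw [h1, map_mul, map_mul, conj_cpow_real hN0]
      simp only [map_sub, map_div₀, map_one, map_ofNat, Complex.conj_conj]
    · obtain ⟨M, hM⟩ := d.bdd a b
      refine ⟨M, fun s h1 h2 => ?_⟩
      rw [Complex.norm_conj]
      have h3 := hM (conj s) (by rw [conj_re]; exact h1) (by rw [conj_re]; exact h2)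
      rwa [conj_im, abs_neg] at h3
  · intro s hs h
    have h1 : Λ (conj s) = 0 := by
      have := congrArg conj h
      simpa using this
    exact hnz (conj s) (by rw [conj_re]; exact hs) h1

end Pool.Agent.Q210.DS
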