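import Pool.Agent.Q260.DS.Stm2

/-!
# Project DS (helper260), job LZ: a zero free box gives the Lindelof bound
-/

set_option autoImplicit false

namespace Pool.Agent.Q210.DS

open Complex Filter Topology Metric Set
open Pool.Agent.W169.HF H353.E H353.F Q240.GS Pool.Agent.Q260.DS
open scoped ComplexConjugate

/-- the lower bound for the gamma factor on the critical line -/
lemma gaf_half {m : ℕ} (hm : 1 ≤ m) {N : ℝ} {μ : Fin m → ℂ} (hN : 1 ≤ N) (hμ : ∀ j, (μ j).re ≤ 1 / 2)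
    (T : ℝ) (hs : ∀ j, (1 / 2 + (T : ℂ) * I) - μ j ≠ 0) :
    gg N μ T * ‖(gaf N μ (1 / 2 + T * I))⁻¹‖ ≤ Real.exp (135 * m) := by
  have hN0 : 0 < N := by linarith
  have gp := gaf_GP hm hN hμ
  have h1 := gaf_add_two (μ := μ) hN0 hs
  have h2 := (gam_loc gp T (u := 2) (by simp; norm_num)).2
  have h3 := fac_le (μ := μ) hN T 0
  rw [add_zero] at h3
  have h4 := norm_fac (μ := μ) hN0 (1 / 2 + (T : ℂ) * I)
  have h5 := congrArg norm h1
  rw [norm_mul, h4] at h5
  have h6 := (el_bd hN hμ T).1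
  have h7 : cnd N μ T ≤ Real.exp (2 * el N μ T + 14 * m) := by
    have hc := cnd_pos hN μ T
    rw [← Real.log_le_iff_le_exp (by linarith)]
    exact h6
  have h8 : gg N μ T * Real.exp (el N μ T * 2 - 4 * (6 * m) * (1 + 4)) ≤ ‖gaf N μ (1 / 2 + (T : ℂ) * I + 2)‖ := by
    have e1 : ‖(2 : ℂ)‖ ^ 2 = 4 := by norm_num
    rw [e1, re_ofNat] at h2
    exact h2
  rw [h5] at h8
  obtain ⟨P, hP⟩ : ∃ P : ℝ, P = N * ∏ j, (‖1 / 2 + (T : ℂ) * I - μ j‖ / (2 * Real.pi)) := ⟨_, rfl⟩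
  rw [← hP] at h3 h8
  have h9 : P ≤ Real.exp (2 * el N μ T + 15 * m) := by
    refine h3.trans ?_
    rw [norm_zero]
    calc cnd N μ T * Real.exp (m * (1 + (0 : ℝ) ^ 2)) ≤
        Real.exp (2 * el N μ T + 14 * m) * Real.exp (m * (1 + (0 : ℝ) ^ 2)) := by gcongr
      _ = _ := by
          rw [← Real.exp_add]
          congr 1
          ring
  obtain ⟨g, hg⟩ : ∃ g : ℝ, g = ‖gaf N μ (1 / 2 + (T : ℂ) * I)‖ := ⟨_, rfl⟩
  rw [norm_inv, ← hg]
  rw [← hg] at h8
  have hg0 : 0 ≤ g := by rw [hg]; exact norm_nonneg _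
  have hgg : 0 < gg N μ T := gpos hm hN hμ T
  have h10 : gg N μ T * Real.exp (el N μ T * 2 - 4 * (6 * m) * (1 + 4)) ≤
      g * Real.exp (2 * el N μ T + 15 * m) := h8.trans (mul_le_mul_of_nonneg_left h9 hg0)
  have hg1 : 0 < g := by
    have h11 : 0 < gg N μ T * Real.exp (el N μ T * 2 - 4 * (6 * m) * (1 + 4)) := by positivity
    have h12 := h11.trans_le h10
    by_contra hcon
    have h13 : g = 0 := le_antisymm (not_lt.1 hcon) hg0
    rw [h13, zero_mul] at h12
    exact lt_irrefl _ h12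
  rw [mul_inv_le_iff₀ hg1]
  have h14 : gg N μ T = gg N μ T * Real.exp (el N μ T * 2 - 4 * (6 * m) * (1 + 4)) *
      Real.exp (-(el N μ T * 2 - 4 * (6 * m) * (1 + 4))) := by
    rw [mul_assoc, ← Real.exp_add, add_neg_cancel, Real.exp_zero, mul_one]
  rw [h14]
  calc gg N μ T * Real.exp (el N μ T * 2 - 4 * (6 * m) * (1 + 4)) *
      Real.exp (-(el N μ T * 2 - 4 * (6 * m) * (1 + 4))) ≤
      g * Real.exp (2 * el N μ T + 15 * m) * Real.exp (-(el N μ T * 2 - 4 * (6 * m) * (1 + 4))) :=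
        mul_le_mul_of_nonneg_right h10 (Real.exp_pos _).le
    _ = g * Real.exp (135 * m) := by
        rw [mul_assoc, ← Real.exp_add]
        congr 2
        ring
    _ = _ := by ring

theorem t_LZ : S_LZ := by
  intro m ε hm hε
  have hm' : (1 : ℝ) ≤ m := by exact_mod_cast hm
  obtain ⟨η, hη⟩ : ∃ η : ℝ, η = min ε 1 := ⟨_, rfl⟩
  have hη0 : 0 < η := by rw [hη]; exact lt_min hε one_pos
  have hη1 : η ≤ 1 := by rw [hη]; exact min_le_right _ _
  have hηε : η ≤ ε := by rw [hη]; exact min_le_left _ _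
  obtain ⟨K, hK, hnd⟩ := nd_of m hm
  obtain ⟨R, ℓ0, hR, HP⟩ := prof_all K (3 / 2) (η / 8) (η / 8) (η / 8) 1 hK (by norm_num) (by norm_num)
    (by linarith) (by linarith) (by linarith) (by linarith) (by linarith) le_rfl
  refine ⟨η / 8, R, max 1 (max (2 * ℓ0 + 14 * m) (200 * m / η)), by linarith, by linarith,
    le_max_left _ _, ?_⟩
  rintro N μ Λ ⟨α, e, d, hnz⟩ T hT hzf
  have hN := d.one_le
  have hN0 : 0 < N := by linarith
  have hT1 : 2 * ℓ0 + 14 * m ≤ Real.log (cnd N μ T) :=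
    ((le_max_left _ _).trans (le_max_right _ _)).trans hT
  have hT2 : 200 * m / η ≤ Real.log (cnd N μ T) :=
    ((le_max_right _ _).trans (le_max_right _ _)).trans hT
  rw [div_le_iff₀ hη0] at hT2
  have hL1 : 1 ≤ Real.log (cnd N μ T) := (le_max_left _ _).trans hT
  obtain ⟨e1, e2⟩ := el_bd hN d.re_le T
  by_cases hs : ∀ j, (1 / 2 + (T : ℂ) * I) - μ j ≠ 0
  · have ND1 := hnd N μ α e Λ d hnz T
    have P := HP (el N μ T) 1 (fn N μ Λ T) (by linarith) ND1.ud (fun u hu1 hu2 h0 => by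
      rw [fn_zero hm hN d.re_le] at h0
      have h1 := hzf _ h0 (by simp; linarith)
      have h2 : (1 / 2 + (T : ℂ) * I + u).im - T = u.im := by simp
      rw [h2] at h1
      linarith)
    have h0 := P.upp 0 (by simp) (by simp)
    rw [one_mul, zero_re, abs_zero, max_eq_right (by linarith)] at h0
    have hgg : 0 < gg N μ T := gpos hm hN d.re_le T
    have h1 : LL μ Λ (1 / 2 + T * I) = (gg N μ T : ℂ) * fn N μ Λ T 0 * (gaf N μ (1 / 2 + T * I))⁻¹ := by
      rw [LL_eq hN0]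
      congr 1
      unfold fn
      rw [add_zero, ← mul_assoc]
      have h2 : (gg N μ T : ℂ) * (((‖gaf N μ (3 / 2 + T * I)‖ *
          Real.exp (-(gaD N μ (3 / 2 + T * I)).re))⁻¹ : ℝ) : ℂ) = 1 := by
        rw [← ofReal_mul]
        have h3 : gg N μ T * (‖gaf N μ (3 / 2 + T * I)‖ *
          Real.exp (-(gaD N μ (3 / 2 + T * I)).re))⁻¹ = 1 := mul_inv_cancel₀ hgg.ne'
        rw [h3, ofReal_one]
      rw [h2, one_mul]
    rw [h1, norm_mul, norm_mul, Complex.norm_real, Real.norm_of_nonneg hgg.le]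
    have h3 := gaf_half hm hN d.re_le T hs
    calc gg N μ T * ‖fn N μ Λ T 0‖ * ‖(gaf N μ (1 / 2 + T * I))⁻¹‖ =
        (gg N μ T * ‖(gaf N μ (1 / 2 + T * I))⁻¹‖) * ‖fn N μ Λ T 0‖ := by ring
      _ ≤ Real.exp (135 * m) * Real.exp (el N μ T * (η / 8 + η / 8) + η / 8 * el N μ T) := by gcongr
      _ = Real.exp (135 * m + 3 * η / 8 * el N μ T) := by
          rw [← Real.exp_add]
          congr 1
          ring
      _ ≤ Real.exp (ε * Real.log (cnd N μ T)) := by
          apply Real.exp_le_exp.2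
          have h4 : η * Real.log (cnd N μ T) ≤ ε * Real.log (cnd N μ T) :=
            mul_le_mul_of_nonneg_right hηε (by linarith)
          have h5 : 3 * η / 8 * el N μ T ≤ 3 * η / 8 * ((Real.log (cnd N μ T) + 10 * m) / 2) := by
            apply mul_le_mul_of_nonneg_left _ (by linarith)
            linarith
          have h6 : η * m ≤ m := by nlinarith
          nlinarith
  · push Not at hs
    obtain ⟨j, hj⟩ := hs
    have h1 : LL μ Λ (1 / 2 + T * I) = 0 := by
      unfold LL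
      have h2 : ∏ j, (Gammaℝ (1 / 2 + T * I - μ j))⁻¹ = 0 := by
        refine Finset.prod_eq_zero (Finset.mem_univ j) ?_
        rw [hj, Gammaℝ_def, zero_div, Complex.Gamma_zero, mul_zero, inv_zero]
      rw [h2, mul_zero]
    rw [h1, norm_zero]
    exact (Real.exp_pos _).le

end Pool.Agent.Q210.DS
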