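import Pool.Agent.Q260.DS.Stm2

/-!
# Project DS (helper260), job SY: L-functions form a `Sys`
-/

set_option autoImplicit false

namespace Pool.Agent.Q210.DS

open Complex Filter Topology Metric Set
open Pool.Agent.W169.HF H353.E H353.F Q240.GS Pool.Agent.Q260.DS
open scoped ComplexConjugate

lemma el_shift {m : ℕ} (hm : 1 ≤ m) {N : ℝ} {μ : Fin m → ℂ} (hN : 1 ≤ N) (hμ : ∀ j, (μ j).re ≤ 1 / 2)
    (y v : ℝ) : |el N μ (y + v) - el N μ y| ≤ 25 * m * Real.log (2 + |v|) := by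
  have hm' : (1 : ℝ) ≤ m := by exact_mod_cast hm
  obtain ⟨a1, a2⟩ := el_bd hN hμ y
  obtain ⟨b1, b2⟩ := el_bd hN hμ (y + v)
  have hv := abs_nonneg v
  have c1 := logm_shift (R := v) hN μ (y := y) (y' := y + v) (by rw [add_sub_cancel_left])
  have c2 := logm_shift (R := v) hN μ (y := y + v) (y' := y) (by
    rw [sub_add_cancel_left, abs_neg])
  have h1 : Real.log (1 + |v|) ≤ Real.log (2 + |v|) := Real.log_le_log (by linarith) (by linarith)
  have h2 : (1 : ℝ) / 2 ≤ Real.log (2 + |v|) := by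
    have h3 : Real.log 2 ≤ Real.log (2 + |v|) := Real.log_le_log (by norm_num) (by linarith)
    have := Real.log_two_gt_d9
    linarith
  have h3 : (m : ℝ) * Real.log (1 + |v|) ≤ m * Real.log (2 + |v|) :=
    mul_le_mul_of_nonneg_left h1 (by linarith)
  have h4 : (m : ℝ) * (1 / 2) ≤ m * Real.log (2 + |v|) :=
    mul_le_mul_of_nonneg_left h2 (by linarith)
  rw [abs_le]
  constructor <;> nlinarith

theorem t_SY (h : S_HD) : S_SY := by
  intro m M Y hm hM hY
  have hm' : (1 : ℝ) ≤ m := by exact_mod_cast hm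
  obtain ⟨A, hA, HD⟩ := h m M Y hm hM hY
  obtain ⟨B, hB, HS⟩ := sharpX m hm (show (0 : ℝ) ≤ 1 / 2 by norm_num) le_rfl
    (show (0 : ℝ) < 1 / 2 by norm_num) (by norm_num)
  have hlogB : 0 ≤ Real.log B := Real.log_nonneg hB
  refine ⟨Real.log B + 20 * (6 * m), A, by linarith, hA, ?_⟩
  rintro N μ Λ ⟨α, ε, d, hnz⟩ hμM
  obtain ⟨S, hslow, hfe, hzer, hne⟩ := HS N μ α ε Λ d
  have hN := d.one_le
  have hud : ∀ y : ℝ, UD (Real.log B + 20 * (6 * m)) (3 / 2) (el N μ y) (gg N μ y)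
      (fun u : ℂ => XX N Λ (1 / 2 + (y : ℂ) * I + u)) := fun y => by
    have ud := ud_of_sharp S hslow (by norm_num) y
    rw [show (1 + 1 / 2 + 1 / 2 - 1 / 2 : ℝ) = 3 / 2 by norm_num] at ud
    exact ud
  have hff : ∀ (y : ℝ) (u : ℂ), ff N Λ (u + I * y) = XX N Λ (1 / 2 + (y : ℂ) * I + u) := fun y u => by
    unfold ff
    congr 1
    ring
  refine ⟨?_, fun y => (hud y).hG, fun y u => ?_, fun y u hu => ?_, fun y v => ?_, fun y v hy hv => ?_⟩
  · have h1 := hslow.1
    exact h1.comp (differentiable_id.const_add (1 / 2 : ℂ))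
  · rw [hff]
    exact (hud y).up u
  · rw [hff]
    exact (hud y).lo u hu
  · refine (el_shift hm hN d.re_le y v).trans ?_
    refine mul_le_mul_of_nonneg_right (by linarith) (Real.log_nonneg (by linarith [abs_nonneg v]))
  · exact HD N μ hN d.re_le hμM y v hy hv

end Pool.Agent.Q210.DS
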